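import Pool.Agent.Helper90.TS.CStmts

/-!
# Module UMOD: elementary substructures
-/

set_option autoImplicit false

namespace Pool.Agent.Helper90.TS

open FirstOrder Language

variable {L : FirstOrder.Language.{0, 0}} {C : Type} [L.Structure C]

theorem umod_single {A : Set C} {ι : Type} (i : ι) {a : C} (ha : a ∈ A) :
    A.Definable L {v : ι → C | v i = a} :=
  (Set.Definable.singleton_of_mem L ha).preimage_comp (fun _ : Fin 1 => i)

theorem umod_fin {A : Set C} {D : Set (Unit → C)} (hD : D.Finite) (hA : ∀ x ∈ D, x () ∈ A) :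
    A.Definable L D := by
  have hfin : Finite D := hD.to_subtype
  have h1 : D = ⋃ x : D, {v : Unit → C | v () = (x : Unit → C) ()} := by
    ext v
    rw [Set.mem_iUnion]
    constructor
    · intro hv
      exact ⟨⟨v, hv⟩, rfl⟩
    · rintro ⟨⟨x, hx⟩, hvx⟩
      have h2 : v = x := by
        funext i
        exact hvx
      rw [h2]
      exact hx
  rw [h1]
  exact Set.definable_iUnion_of_finite fun x => umod_single () (hA _ x.2)

theorem umod_one (hTV : ST_CTV) (N : L.ElementarySubstructure C) (e : C)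
    (h : ∃ D : Set (Unit → C), (N : Set C).Definable L D ∧ D.Finite ∧ (fun _ => e) ∈ D) :
    e ∈ N := by
  obtain ⟨D, hD, hfin, he⟩ := h
  by_contra hne
  have h1 : (N : Set C).Definable L {x : Unit → C | x ∈ D ∧ x () ∈ N} :=
    umod_fin (hfin.subset fun x hx => hx.1) (fun x hx => hx.2)
  have h2 : (N : Set C).Definable L (D \ {x : Unit → C | x ∈ D ∧ x () ∈ N}) := hD.sdiff h1
  obtain ⟨x, hx, hxN⟩ := hTV L C Unit N _ h2 ⟨_, he, fun h => hne h.2⟩
  exact hx.2 ⟨hx.1, hxN ()⟩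

theorem umod_two (hTV : ST_CTV) (hID : ST_CINVD) (T : Dt L C) (N : L.ElementarySubstructure C)
    (m : ℕ) (u : Fin m → C) (e : C) (hu : ∀ i, u i ∈ N)
    (hf : {e' | ∃ g : AutG L C, g • u = u ∧ g • e = e'}.Finite) : e ∈ N := by
  set O : Set (Unit → C) := {v | ∃ g : AutG L C, g • u = u ∧ g • e = v ()} with hO
  have hOfin : O.Finite := by
    refine (hf.image (fun e' : C => fun _ : Unit => e')).subset ?_
    intro v hv
    exact ⟨v (), hv, rfl⟩
  have hOdef : (Set.univ : Set C).Definable L O := umod_fin hOfin (fun x _ => Set.mem_univ _)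
  have hObd : Bdd T.S O := by
    choose f hf2 using T.hM.cover
    obtain ⟨K, hK⟩ := (hOfin.image (fun x : Unit → C => f (x ()))).bddAbove
    refine ⟨K, fun x hx i => ?_⟩
    exact T.hM.mono (hK ⟨x, hx, rfl⟩) (hf2 (x ()))
  have hOinv : Inv (Fx (AutG L C) (Set.range u)) O := by
    rintro g hg x ⟨k, hk1, hk2⟩
    refine ⟨g * k, ?_, ?_⟩
    · rw [mul_smul, hk1, fx_range.1 hg]
    · rw [mul_smul, hk2]
      rfl
  have hOA := hID L C T.S T.hM Unit (Set.range u) (Set.finite_range u).countable O hOdef hObd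
    hOinv
  refine umod_one hTV N e ⟨O, hOA.mono ?_, hOfin, ⟨1, one_smul _ _, one_smul _ _⟩⟩
  rintro _ ⟨i, rfl⟩
  exact hu i

theorem umod_pi (ι : Type) [Finite ι] {P : ι → Set C} (hP : ∀ i, (∅ : Set C).Definable₁ L (P i)) :
    (∅ : Set C).Definable L {x : ι → C | ∀ i, x i ∈ P i} := by
  have h1 : {x : ι → C | ∀ i, x i ∈ P i} = ⋂ i, {x : ι → C | x i ∈ P i} := by
    ext x
    rw [Set.mem_iInter]
    exact Iff.rfl
  rw [h1]
  exact Set.definable_iInter_of_finite fun i =>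
    Set.Definable.preimage_comp (fun _ : Fin 1 => i) (hP i)

theorem umod_three (hTV : ST_CTV) (hR : ST_RHO) (hI : ST_CINV) (T : Dt L C)
    (N : L.ElementarySubstructure C) (e : C) (heN : e ∈ N) (he : e ∈ T.UU) :
    ∃ (m : ℕ) (u : Fin m → C), (∀ i, u i ∈ N ∧ u i ∈ T.U0) ∧
      ∀ g : AutG L C, g • u = u → g • e = e := by
  obtain ⟨m, v, hv, hve⟩ := he
  choose j hj using fun k => Set.mem_iUnion.1 (hv k)
  obtain ⟨R, hR0, hR1⟩ := hR L C T.S T.hM (Fin m) v e hve
  have hRN : (N : Set C).Definable L R := Set.Definable.mono hR0 (Set.empty_subset _)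
  have hE : (N : Set C).Definable L {w : Fin m ⊕ Unit → C | w (Sum.inr ()) = e} :=
    umod_single _ heN
  have hY := ((Set.Definable.mono (umod_pi (Fin m) (fun k => T.phdef (j k)))
    (Set.empty_subset (N : Set C))).inter
    (Set.Definable.exists_of_finite (hRN.inter hE))).inter
    (Set.Definable.forall_of_finite (hRN.compl.union hE))
  have hR2 : ∀ w : Unit → C, Sum.elim v w ∈ R ↔ w = fun _ => e := by
    intro w
    have h1 := hR1 1 w
    rw [one_smul, one_smul] at h1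
    exact h1
  obtain ⟨u, ⟨⟨hu1, y, hu2, hu3⟩, hu4⟩, huN⟩ := hTV L C (Fin m) N _ hY ⟨v, ⟨hj,
    ⟨fun _ => e, (hR2 _).2 rfl, rfl⟩⟩, fun w => by
      by_cases hw : Sum.elim v w ∈ R
      · right
        show w () = e
        rw [(hR2 w).1 hw]
      · left
        exact hw⟩
  refine ⟨m, u, fun i => ⟨huN i, Set.mem_iUnion.2 ⟨j i, hu1 i⟩⟩, ?_⟩
  intro g hg
  have h2 := ((hI L C (Fin m ⊕ Unit) ∅ R hR0).1 g (by rw [fx_empty]; trivial)
    (Sum.elim u y)).2 hu2
  rw [smul_elim, hg] at h2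
  have h3 : y () = e := hu3
  rcases hu4 (g • y) with h4 | h4
  · exact absurd h2 h4
  · have h5 : g • y () = e := h4
    rw [h3] at h5
    exact h5

theorem umod_four (hTV : ST_CTV) (hID : ST_CINVD) (T : Dt L C) (N : L.ElementarySubstructure C)
    (hN : (N : Set C).Countable) (X : Ctx T.V (AutG L C)) (hX : X.Df = T.Df) (m : ℕ)
    (D : Set (Fin m → T.V)) (hD : X.Ov {x : T.V | (x : C) ∈ N} D) (hne : D.Nonempty)
    (hD0 : ∀ x ∈ D, ∀ i, (x i : C) ∈ T.U0) :
    ∃ x ∈ D, ∀ i, (x i : C) ∈ N ∧ (x i : C) ∈ T.U0 := by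
  obtain ⟨hDf, hinv⟩ := hD
  rw [hX] at hDf
  obtain ⟨h1, B, -, ⟨K, hK⟩, hB3, -⟩ := hDf
  have h2 : (Set.univ : Set C).Definable L (im D) := h1.mono (Set.subset_univ _)
  have h3 : Bdd T.S (im D) := ⟨K, fun x hx i => hK x (hB3 hx) i⟩
  have h4 : Inv (Fx (AutG L C) (N : Set C)) (im D) := by
    rintro g hg x ⟨y, hy, rfl⟩
    have hg' : g ∈ Fx (AutG L C) {x : T.V | (x : C) ∈ N} := by
      intro a ha
      apply Subtype.ext
      exact hg (a : C) ha
    exact ⟨g • y, hinv g hg' y hy, rfl⟩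
  have h5 := hID L C T.S T.hM (Fin m) (N : Set C) hN (im D) h2 h3 h4
  obtain ⟨y, hy⟩ := hne
  obtain ⟨x, ⟨z, hz, rfl⟩, hxN⟩ := hTV L C (Fin m) N _ h5 ⟨up y, y, hy, rfl⟩
  exact ⟨z, hz, fun i => ⟨hxN i, hD0 z hz i⟩⟩

theorem st_UMOD (hTV : ST_CTV) (hID : ST_CINVD) (hR : ST_RHO) (hI : ST_CINV) : ST_UMOD := by
  intro L C _ T N hN
  refine ⟨umod_one hTV N, umod_two hTV hID T N, umod_three hTV hR hI T N, ?_⟩
  intro X hX m D hD hne hD0
  exact umod_four hTV hID T N hN X hX m D hD hne hD0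

end Pool.Agent.Helper90.TS
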